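import Mathlib

namespace Pool.Agent.Results.MP_2c59d0_an.Bounded

lemma winA {γ K κ : ℝ} (hγ : γ ≤ 1) (hκ : 2 ≤ κ) (hK : κ ≤ K) (p q : ℕ → ℝ) (_hq : ∀ i, 0 < q i)
    (hrec : ∀ i, q (i + 1) = γ + q i / p (i + 1)) (i0 L s : ℕ) (hp : ∀ i, i0 ≤ i → i ≤ L → K ≤ p i)
    (h0 : q i0 ≤ κ ^ s) : ∀ i, i0 + s + 1 ≤ i → i ≤ L → q i ≤ γ + 3 / K := by
  have hκ0 : 0 < κ := by linarith
  have hK0 : 0 < K := by linarith
  have h1 : ∀ j, i0 + j ≤ L → q (i0 + j) ≤ 2 + κ ^ s / κ ^ j := by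
    intro j
    induction j with
    | zero => intro _; simp; linarith
    | succ j ih =>
      intro hj
      have a := ih (by omega)
      have b := hp (i0 + j + 1) (by omega) (by omega)
      rw [← add_assoc, hrec]
      have c : q (i0 + j) / p (i0 + j + 1) ≤ (2 + κ ^ s / κ ^ j) / κ :=
        div_le_div₀ (by positivity) a hκ0 (hK.trans b)
      have d : (2 + κ ^ s / κ ^ j) / κ = 2 / κ + κ ^ s / κ ^ (j + 1) := by
        field_simp
        ring
      have e : 2 / κ ≤ 1 := (div_le_one hκ0).mpr hκ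
      linarith
  intro i hi hL
  obtain ⟨j, rfl⟩ : ∃ j, i = i0 + j + 1 := ⟨i - i0 - 1, by omega⟩
  have a := h1 j (by omega)
  have b : κ ^ s / κ ^ j ≤ 1 :=
    (div_le_one (by positivity)).mpr (pow_le_pow_right₀ (by linarith) (by omega))
  rw [hrec]
  have c : q (i0 + j) / p (i0 + j + 1) ≤ 3 / K :=
    div_le_div₀ (by norm_num) (by linarith) hK0 (hp _ (by omega) hL)
  linarith

lemma winB {γ K K' : ℝ} (hγ0 : 0 < γ) (hγ : γ ≤ 1) (hK : 0 < K) (hK' : 6 * K / γ ≤ K')
    (q r : ℕ → ℝ) (hq : ∀ i, 0 < q i) (hr : ∀ i, 0 < r i)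
    (hrec : ∀ i, r (i + 1) = γ + r i / q (i + 1)) (i1 L t : ℕ)
    (hs : ∀ i, i1 ≤ i → i ≤ L → q i ≤ γ + 3 / K') (ht : 2 * K / γ ≤ t) :
    ∀ i, i1 + t ≤ i → i ≤ L → K ≤ r i := by
  have hK0 : 0 < K' := lt_of_lt_of_le (by positivity) hK'
  have h1 : ∀ j : ℕ, i1 + j ≤ L → min K (j * γ / 2) ≤ r (i1 + j) := by
    intro j
    induction j with
    | zero => intro _; simpa using Or.inr (hr i1).le
    | succ j ih =>
      intro hj
      have a := ih (by omega)
      have b := hs (i1 + j + 1) (by omega) (by omega)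
      rw [← add_assoc, hrec]
      set ρ := min K (j * γ / 2) with hρ
      have hρ0 : 0 ≤ ρ := le_min hK.le (by positivity)
      have hρK : ρ ≤ K := min_le_left _ _
      have c : ρ / (1 + 3 / K') ≤ r (i1 + j) / q (i1 + j + 1) :=
        div_le_div₀ (hr _).le a (hq _) (by linarith)
      have d : ρ - γ / 2 ≤ ρ / (1 + 3 / K') := by
        rw [le_div_iff₀ (by positivity)]
        have e : ρ * (3 / K') ≤ γ / 2 := by
          rw [div_le_iff₀ hγ0] at hK'
          rw [← mul_div_assoc, div_le_iff₀ hK0]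
          nlinarith
        have f : 0 ≤ γ / 2 * (3 / K') := by positivity
        nlinarith
      have g : min K (((j + 1 : ℕ) : ℝ) * γ / 2) ≤ ρ + γ / 2 := by
        rcases le_total K (j * γ / 2) with h | h
        · rw [hρ, min_eq_left h]
          have := min_le_left K (((j + 1 : ℕ) : ℝ) * γ / 2)
          linarith
        · rw [hρ, min_eq_right h]
          have := min_le_right K (((j + 1 : ℕ) : ℝ) * γ / 2)
          push_cast at this ⊢
          linarith
      linarith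
  intro i hi hL
  obtain ⟨j, rfl⟩ : ∃ j, i = i1 + j := ⟨i - i1, by omega⟩
  have a := h1 j hL
  have b : K ≤ j * γ / 2 := by
    have : (t : ℝ) ≤ j := by exact_mod_cast (by omega : t ≤ j)
    rw [div_le_iff₀ hγ0] at ht
    nlinarith
  rwa [min_eq_left b] at a

lemma init_bound (z : ℕ → ℝ) (k : ℕ) : ∃ B, 0 ≤ B ∧ ∀ n < k, z n ≤ B := by
  refine ⟨∑ i ∈ Finset.range k, |z i|, Finset.sum_nonneg fun _ _ => abs_nonneg _, fun n hn => ?_⟩
  exact (le_abs_self _).trans (Finset.single_le_sum (f := fun i => |z i|)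
    (fun _ _ => abs_nonneg _) (Finset.mem_range.mpr hn))

lemma small {γ : ℝ} (hγ0 : 0 < γ) (hγ : γ ≤ 1) (m : ℕ) (z : ℕ → ℝ) (hz : ∀ n, γ < z n)
    (hrec : ∀ n, z (n + (2 * m + 3)) = γ + z n / z (n + (2 * m + 1))) : ∃ C, ∀ n, z n ≤ C := by
  by_contra hcon
  push Not at hcon
  have hz0 : ∀ n, 0 < z n := fun n => hγ0.trans (hz n)
  set k := 2 * m + 3 with hk
  obtain ⟨B, hB0, hB⟩ := init_bound z k
  set κ : ℝ := 4 / γ ^ k with hκ
  have hγk : γ ^ k ≤ 1 := pow_le_one₀ hγ0.le hγ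
  have hκ4 : 4 ≤ κ := by
    rw [hκ, le_div_iff₀ (by positivity)]
    linarith
  have h6 : 1 ≤ 6 / γ := by
    rw [le_div_iff₀ hγ0]
    linarith
  set K0 : ℝ := κ * (6 / γ) ^ (m + 1) with hK0
  set D : ℝ := K0 + B + 1 with hD
  have hK00 : 0 < K0 := by positivity
  obtain ⟨s0, hs0⟩ := exists_nat_ge (max (2 * K0 / γ) ((2 * k + 2 + D) / γ ^ (2 * k + 2)) + 1)
  have hex : ∃ N, κ ^ s0 < z N := hcon _
  set N := Nat.find hex with hN
  have hM : κ ^ s0 < z N := Nat.find_spec hex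
  have hrecord : ∀ n ≤ N, z n ≤ z N := by
    intro n hn
    rcases hn.eq_or_lt with rfl | h
    · exact le_rfl
    · exact (not_lt.mp (Nat.find_min hex h)).trans hM.le
  have hM1 : 1 ≤ z N := (one_le_pow₀ (by linarith)).trans hM.le
  obtain ⟨s, hs1, hs2⟩ := exists_nat_pow_near hM1 (show 1 < κ by linarith)
  have hss : s0 ≤ s := by
    have := (pow_lt_pow_iff_right₀ (show 1 < κ by linarith)).mp (hM.trans hs2)
    omega
  have hss' : (s0 : ℝ) ≤ s := by exact_mod_cast hss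
  set t := s + 2 with ht
  have hbig : D ≤ γ ^ (k * t + 2) * z N - ((k * t + 2 : ℕ) : ℝ) := by
    have e1 : γ ^ (k * t + 2) * κ ^ s = γ ^ (2 * k + 2) * 4 ^ s := by
      rw [hκ, div_pow, ht, ← pow_mul, show k * (s + 2) + 2 = 2 * k + 2 + k * s by ring, pow_add]
      field_simp
    have e2 : ((s : ℝ) + 1) ^ 2 ≤ 4 ^ s := by
      have : ((s : ℝ) + 1) ≤ 2 ^ s := by exact_mod_cast Nat.lt_two_pow_self
      calc ((s : ℝ) + 1) ^ 2 ≤ (2 ^ s) ^ 2 := by gcongr
        _ = 4 ^ s := by rw [← pow_mul, mul_comm, pow_mul]; norm_num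
    have e3 : 2 * k + 2 + D ≤ γ ^ (2 * k + 2) * ((s : ℝ) + 1) := by
      have := le_max_right (2 * K0 / γ) ((2 * k + 2 + D) / γ ^ (2 * k + 2))
      have h2 : (2 * k + 2 + D) / γ ^ (2 * k + 2) ≤ (s : ℝ) + 1 := by linarith
      rw [div_le_iff₀ (by positivity)] at h2
      linarith
    have e4 : γ ^ (k * t + 2) * κ ^ s ≤ γ ^ (k * t + 2) * z N := by gcongr
    have e5 : γ ^ (2 * k + 2) * ((s : ℝ) + 1) ^ 2 ≤ γ ^ (2 * k + 2) * 4 ^ s := by gcongr
    have e6 : (2 * k + 2 + D) * ((s : ℝ) + 1) ≤ γ ^ (2 * k + 2) * ((s : ℝ) + 1) ^ 2 := by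
      rw [sq, ← mul_assoc]
      gcongr
    have hD0 : 0 ≤ D := by positivity
    have hs' : (0 : ℝ) ≤ s := by positivity
    have hk' : (0 : ℝ) ≤ k := by positivity
    rw [ht]
    push_cast
    nlinarith [mul_nonneg hD0 hs', mul_nonneg hk' hs']
  have hback : ∀ i ≤ k * t + 2, ∃ n, n + i * k = N ∧ γ ^ i * z N - i ≤ z n ∧ D ≤ z n := by
    have hmono : ∀ i ≤ k * t + 2, D ≤ γ ^ i * z N - i := by
      intro i hi
      have a : γ ^ (k * t + 2) ≤ γ ^ i := pow_le_pow_of_le_one hγ0.le hγ hi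
      have b : (i : ℝ) ≤ ((k * t + 2 : ℕ) : ℝ) := by exact_mod_cast hi
      have c : γ ^ (k * t + 2) * z N ≤ γ ^ i * z N := by gcongr
      linarith
    intro i
    induction i with
    | zero =>
      intro hi
      have := hmono 0 hi
      exact ⟨N, by simp, by simp, by simpa using this⟩
    | succ i ih =>
      intro hi
      obtain ⟨n, hn, h1, h2⟩ := ih (by omega)
      have hnk : k ≤ n := by
        by_contra h
        have := hB n (by omega)
        linarith
      obtain ⟨n', rfl⟩ : ∃ n', n = n' + k := ⟨n - k, by omega⟩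
      have h3 : z n' / z (n' + (2 * m + 1)) ≤ z n' / γ :=
        div_le_div_of_nonneg_left (hz0 _).le hγ0 (hz _).le
      have h4 : γ ^ (i + 1) * z N - ((i + 1 : ℕ) : ℝ) ≤ z n' := by
        have h5 : γ ^ i * z N - i - 1 ≤ z n' / γ := by
          have := hrec n'
          linarith
        rw [le_div_iff₀ hγ0] at h5
        have : (0 : ℝ) ≤ i := by positivity
        push_cast
        rw [pow_succ]
        nlinarith
      exact ⟨n', by rw [← hn]; ring, h4, (hmono _ hi).trans h4⟩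
  obtain ⟨a, ha, -, -⟩ := hback (k * t + 2) le_rfl
  let u : ℕ → ℕ → ℝ := fun j i => z (a + i * k + 2 * j)
  have hu : ∀ j i, u (j + 1) (i + 1) = γ + u (j + 1) i / u j (i + 1) := by
    intro j i
    have := hrec (a + i * k + 2 * (j + 1))
    simp only [u]
    rw [show a + (i + 1) * k + 2 * (j + 1) = a + i * k + 2 * (j + 1) + k by ring, this,
      show a + i * k + 2 * (j + 1) + (2 * m + 1) = a + (i + 1) * k + 2 * j by rw [hk]; ring]
  have hule : ∀ j i, j ≤ k → i ≤ k * t → u j i ≤ κ ^ (s + 1) := by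
    intro j i hj hi
    refine (hrecord _ ?_).trans hs2.le
    have : i * k ≤ k * t * k := Nat.mul_le_mul_right k hi
    rw [← ha]
    nlinarith
  have hodd : ∀ b, b ≤ m + 1 → (∀ i, 2 * b * t ≤ i → i ≤ k * t →
      κ * (6 / γ) ^ (m + 1 - b) ≤ u (2 * b) i) → ∀ i, 2 * b * t + t ≤ i → i ≤ k * t →
        u (2 * b + 1) i ≤ γ + 3 / (κ * (6 / γ) ^ (m + 1 - b)) := by
    intro b hb h i hi hL
    refine winA hγ (by linarith) (le_mul_of_one_le_right (by linarith) (one_le_pow₀ h6))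
      (u (2 * b)) (u (2 * b + 1)) (fun i => hz0 _) (hu _) (2 * b * t) (k * t) (s + 1) h
      (hule _ _ (by omega) (Nat.mul_le_mul_right t (by omega))) i (by omega) hL
  have heven : ∀ b, b ≤ m + 1 → ∀ i, 2 * b * t ≤ i → i ≤ k * t →
      κ * (6 / γ) ^ (m + 1 - b) ≤ u (2 * b) i := by
    intro b
    induction b with
    | zero =>
      intro _ i _ hi
      obtain ⟨n, hn, -, h2⟩ := hback (k * t + 2 - i) (by omega)
      have e : n = a + i * k + 2 * 0 := by
        obtain ⟨d, hd⟩ : ∃ d, k * t + 2 = d + i := ⟨k * t + 2 - i, by omega⟩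
        rw [hd] at ha hn
        rw [Nat.add_sub_cancel] at hn
        have : (d + i) * k = d * k + i * k := by ring
        omega
      simp only [u, mul_zero] at e ⊢
      rw [← e]
      simp only [Nat.sub_zero]
      linarith
    | succ b ih =>
      intro hb i hi hL
      have h1 := hodd b (by omega) (ih (by omega))
      refine winB hγ0 hγ (by positivity) (K' := κ * (6 / γ) ^ (m + 1 - b)) ?_ (u (2 * b + 1))
        (u (2 * (b + 1))) (fun i => hz0 _) (fun i => hz0 _) (hu (2 * b + 1)) (2 * b * t + t)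
        (k * t) t h1 ?_ i (by nlinarith) hL
      · rw [show m + 1 - b = m + 1 - (b + 1) + 1 by omega, pow_succ]
        apply le_of_eq
        ring
      · have h2 : κ * (6 / γ) ^ (m + 1 - (b + 1)) ≤ K0 := by
          rw [hK0]
          gcongr
          omega
        have h3 := le_max_left (2 * K0 / γ) ((2 * k + 2 + D) / γ ^ (2 * k + 2))
        have h4 : 2 * (κ * (6 / γ) ^ (m + 1 - (b + 1))) / γ ≤ 2 * K0 / γ := by gcongr
        have h5 : (s : ℝ) ≤ (t : ℝ) := by exact_mod_cast (by omega : s ≤ t)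
        exact h4.trans (h3.trans (by linarith))
  have hfin := hodd (m + 1) le_rfl (heven (m + 1) le_rfl) (k * t) (by rw [hk]; nlinarith) le_rfl
  simp only [u, Nat.sub_self, pow_zero, mul_one] at hfin
  rw [show a + k * t * k + 2 * (2 * (m + 1) + 1) = N by rw [← ha, hk]; ring] at hfin
  have h3 : 3 / κ ≤ 1 := (div_le_one (by linarith)).mpr (by linarith)
  have hs00 : 1 ≤ s0 := by
    have h4 := le_max_left (2 * K0 / γ) ((2 * k + 2 + D) / γ ^ (2 * k + 2))
    have h5 : 0 ≤ 2 * K0 / γ := by positivity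
    exact_mod_cast (by linarith : (1 : ℝ) ≤ s0)
  have h5 : κ ^ 1 ≤ κ ^ s0 := pow_le_pow_right₀ (by linarith) hs00
  rw [pow_one] at h5
  linarith

lemma large {γ : ℝ} (hγ : 1 < γ) (m : ℕ) (z : ℕ → ℝ) (hz : ∀ n, γ < z n)
    (hrec : ∀ n, z (n + (2 * m + 3)) = γ + z n / z (n + (2 * m + 1))) : ∃ C, ∀ n, z n ≤ C := by
  obtain ⟨B, hB0, hB⟩ := init_bound z (2 * m + 3)
  refine ⟨B + γ ^ 2 / (γ - 1), fun n => ?_⟩
  have h0 : 0 < γ - 1 := by linarith
  have hγ0 : 0 < γ := by linarith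
  induction n using Nat.strong_induction_on with
  | _ n ih =>
    by_cases hn : n < 2 * m + 3
    · have := hB n hn
      have : 0 ≤ γ ^ 2 / (γ - 1) := by positivity
      linarith
    · obtain ⟨n', rfl⟩ : ∃ n', n = n' + (2 * m + 3) := ⟨n - (2 * m + 3), by omega⟩
      rw [hrec]
      have h1 : z n' / z (n' + (2 * m + 1)) ≤ (B + γ ^ 2 / (γ - 1)) / γ :=
        div_le_div₀ (by positivity) (ih n' (by omega)) hγ0 (hz _).le
      have h2 : γ + (B + γ ^ 2 / (γ - 1)) / γ = B / γ + γ ^ 2 / (γ - 1) := by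
        field_simp
        ring
      have h3 : B / γ ≤ B := div_le_self hB0 hγ.le
      linarith

theorem result (γ : ℝ) (hγ : 0 < γ) (m : ℕ) (hm : 1 ≤ m) (x : ℤ → ℝ)
    (hinit : ∀ n : ℤ, -2 * (m : ℤ) ≤ n → n ≤ 0 → 0 < x n)
    (hrec : ∀ n : ℤ, 0 ≤ n → x (n + 1) = γ + x (n - 2 * m) / x (n - 1)) :
    ∃ C : ℝ, ∀ n : ℤ, -2 * (m : ℤ) ≤ n → x n ≤ C := by
  obtain ⟨m, rfl⟩ : ∃ m', m = m' + 1 := ⟨m - 1, by omega⟩
  push_cast at hinit hrec ⊢
  have hpos : ∀ j : ℕ, 0 < x (j - 2 * (m + 1)) := by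
    intro j
    induction j using Nat.strong_induction_on with
    | _ j ih =>
      by_cases hj : j ≤ 2 * (m + 1)
      · exact hinit _ (by omega) (by omega)
      · obtain ⟨i, rfl⟩ : ∃ i, j = i + (2 * m + 3) := ⟨j - (2 * m + 3), by omega⟩
        have a := ih i (by omega)
        have b := ih (i + (2 * m + 1)) (by omega)
        have c := hrec i (by omega)
        rw [show ((i + (2 * m + 3) : ℕ) : ℤ) - 2 * (m + 1) = i + 1 by push_cast; ring, c]
        rw [show ((i + (2 * m + 1) : ℕ) : ℤ) - 2 * (m + 1) = i - 1 by push_cast; ring] at b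
        positivity
  have hz : ∀ n : ℕ, γ < x (n + 1) := by
    intro n
    have a := hpos n
    have b := hpos (n + (2 * m + 1))
    rw [show ((n + (2 * m + 1) : ℕ) : ℤ) - 2 * (m + 1) = n - 1 by push_cast; ring] at b
    rw [hrec n (by omega)]
    have := div_pos a b
    linarith
  have hr : ∀ n : ℕ, x (((n + (2 * m + 3) : ℕ) : ℤ) + 1) =
      γ + x (n + 1) / x (((n + (2 * m + 1) : ℕ) : ℤ) + 1) := by
    intro n
    rw [hrec _ (by omega)]
    congr 3 <;> push_cast <;> ring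
  obtain ⟨C, hC⟩ : ∃ C, ∀ n : ℕ, x (n + 1) ≤ C := by
    rcases le_or_gt γ 1 with h | h
    · exact small hγ h m (fun n => x (n + 1)) hz hr
    · exact large h m (fun n => x (n + 1)) hz hr
  obtain ⟨B, hB0, hB⟩ := init_bound (fun j : ℕ => x (j - 2 * (m + 1))) (2 * m + 3)
  refine ⟨max B C, fun n hn => ?_⟩
  by_cases h : n ≤ 0
  · have := hB (n + 2 * (m + 1)).toNat (by omega)
    rw [show (((n + 2 * (m + 1)).toNat : ℕ) : ℤ) - 2 * (m + 1) = n by omega] at this
    exact this.trans (le_max_left _ _)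
  · have := hC (n - 1).toNat
    rw [show (((n - 1).toNat : ℕ) : ℤ) + 1 = n by omega] at this
    exact this.trans (le_max_right _ _)

end Pool.Agent.Results.MP_2c59d0_an.Bounded
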